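import Mathlib
import Pool.Agent.MP_4ec1df_co.H35.Main

namespace Pool.Agent.Results.MP_4ec1df_co.Theta

open Pool.Agent.MP_4ec1df_co.H35

theorem result (m : ℕ) (hm : 2 ≤ m) : ∃ c C : ℝ, 0 < c ∧ c ≤ C ∧ ∃ d₀ : ℕ, ∀ d ≥ d₀,
    c * (2 : ℝ) ^ ((d : ℝ) / ((m : ℝ) - 1)) ≤ (B m d : ℝ) ∧
      (B m d : ℝ) ≤ C * (2 : ℝ) ^ ((d : ℝ) / ((m : ℝ) - 1)) :=
  main m hm

end Pool.Agent.Results.MP_4ec1df_co.Theta
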